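import Pool.Agent.H48.MT.Targets

/-!
# MP_c80a4f_an: fixed operators in finite dimension are normal
-/

set_option linter.unusedSectionVars false

open InnerProductSpace Filter Topology
open scoped ComplexConjugate
open Pool.Agent.H48.MT

namespace Pool.Agent.H97.MT

variable {H : Type} [NormedAddCommGroup H] [InnerProductSpace ℂ H] [CompleteSpace H]

/-- the vectors at which the norm is attained -/
theorem norm_attained_iff (T : H →L[ℂ] H) (x : H) :
    (star T * T) x = ((‖T‖ : ℂ) ^ 2) • x ↔ ‖T x‖ = ‖T‖ * ‖x‖ := by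
  have hin : inner ℂ x ((star T * T) x) = (‖T x‖ : ℂ) ^ 2 := by
    change inner ℂ x (star T (T x)) = _
    rw [ContinuousLinearMap.star_eq_adjoint, ContinuousLinearMap.adjoint_inner_right,
      inner_self_eq_norm_sq_to_K]
    rfl
  constructor
  · intro h
    rw [h, inner_smul_right, inner_self_eq_norm_sq_to_K] at hin
    have h2 : (‖T x‖ ^ 2 : ℝ) = (‖T‖ * ‖x‖) ^ 2 := by
      have h3 : (((‖T‖ * ‖x‖) ^ 2 : ℝ) : ℂ) = ((‖T x‖ ^ 2 : ℝ) : ℂ) := by
        push_cast
        rw [mul_pow]
        exact hin
      exact (Complex.ofReal_injective h3).symm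
    exact (pow_left_inj₀ (norm_nonneg _) (by positivity) two_ne_zero).1 h2
  · intro h
    rw [← sub_eq_zero, ← norm_eq_zero, ← sq_eq_zero_iff]
    apply le_antisymm _ (sq_nonneg _)
    have h1 : ‖(star T * T) x‖ ≤ ‖T‖ ^ 2 * ‖x‖ := by
      refine ((star T * T).le_opNorm x).trans ?_
      gcongr
      refine (norm_mul_le _ _).trans ?_
      rw [norm_star, sq]
    have h2 := norm_sub_sq (𝕜 := ℂ) ((star T * T) x) (((‖T‖ : ℂ) ^ 2) • x)
    rw [inner_smul_right, ← inner_conj_symm, hin] at h2
    have h3 : RCLike.re ((‖T‖ : ℂ) ^ 2 * (starRingEnd ℂ) ((‖T x‖ : ℂ) ^ 2)) =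
        ‖T‖ ^ 2 * ‖T x‖ ^ 2 := by
      rw [map_pow, Complex.conj_ofReal, ← Complex.ofReal_pow, ← Complex.ofReal_pow,
        ← Complex.ofReal_mul]
      exact Complex.ofReal_re _
    rw [h3, h, norm_smul, norm_pow, Complex.norm_real, norm_norm] at h2
    rw [h2]
    have h4 : ‖(star T * T) x‖ ^ 2 ≤ (‖T‖ ^ 2 * ‖x‖) ^ 2 := by gcongr
    nlinarith

theorem fin_aux (L : (H →L[ℂ] H) → H →L[ℂ] H) (hfin : FiniteDimensional ℂ H)
    (hred : ∀ E T : H →L[ℂ] H, IsStarProjection E → E * T = T * E → L (T * E) = L T * E ∧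
      E * L T = L T * E)
    (htop : ∀ T, L T = T → ∀ e : ℕ → H, (∀ i, ‖e i‖ = 1) →
      Tendsto (fun i => ‖T (e i)‖) atTop (𝓝 ‖T‖) →
      Tendsto (fun i => ‖T (T (e i))‖) atTop (𝓝 (‖T‖ ^ 2))) (n : ℕ) :
    ∀ T : H →L[ℂ] H, Module.finrank ℂ (LinearMap.range (T : H →ₗ[ℂ] H)) ≤ n → L T = T →
      IsStarNormal T := by
  induction n with
  | zero =>
    intro T hT _
    have h1 : LinearMap.range (T : H →ₗ[ℂ] H) = ⊥ := by
      rw [← Submodule.finrank_eq_zero (R := ℂ)]
      omega
    have h2 : T = 0 := by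
      rw [LinearMap.range_eq_bot] at h1
      ext x
      exact congrArg (fun f : H →ₗ[ℂ] H => f x) h1
    rw [h2]
    infer_instance
  | succ n ih =>
    intro T hT hLT
    by_cases hT0 : T = 0
    · rw [hT0]; infer_instance
    have hr : 0 < ‖T‖ := norm_pos_iff.2 hT0
    have hrc : (‖T‖ : ℂ) ≠ 0 := by exact_mod_cast hr.ne'
    set r := ‖T‖ with hr'
    set S : Submodule ℂ H := LinearMap.ker ((star T * T - ((r : ℂ) ^ 2) • (1 : H →L[ℂ] H) :
      H →L[ℂ] H) : H →ₗ[ℂ] H) with hS
    have hSm : ∀ x, x ∈ S ↔ (star T * T) x = ((r : ℂ) ^ 2) • x := by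
      intro x
      rw [hS, LinearMap.mem_ker]
      change (star T * T) x - ((r : ℂ) ^ 2) • x = 0 ↔ _
      rw [sub_eq_zero]
    have hSm' : ∀ x, x ∈ S ↔ ‖T x‖ = r * ‖x‖ := fun x =>
      (hSm x).trans (norm_attained_iff T x)
    -- a norming vector
    obtain ⟨e0, he0, he0'⟩ : ∃ e0 : H, e0 ∈ S ∧ e0 ≠ 0 := by
      obtain ⟨y, hy⟩ : ∃ y, T y ≠ 0 := by
        by_contra h
        push Not at h
        exact hT0 (by ext y; simpa using h y)
      have hy0 : y ≠ 0 := by
        rintro rfl
        exact hy (map_zero _)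
      have : Nontrivial H := ⟨y, 0, hy0⟩
      have hproper : ProperSpace H := FiniteDimensional.proper ℂ H
      obtain ⟨e, he, hmax⟩ := (isCompact_sphere (0 : H) 1).exists_isMaxOn
        (NormedSpace.sphere_nonempty.2 zero_le_one) (T.continuous.norm.continuousOn)
      have he1 : ‖e‖ = 1 := by simpa using he
      have hle : ‖T‖ ≤ ‖T e‖ := by
        refine T.opNorm_le_bound (norm_nonneg _) fun x => ?_
        by_cases hx : x = 0
        · simp [hx]
        have hx' : ‖x‖ ≠ 0 := norm_ne_zero_iff.2 hx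
        have h1 := hmax (show ((‖x‖ : ℂ)⁻¹ • x) ∈ Metric.sphere (0 : H) 1 by
          rw [mem_sphere_zero_iff_norm, norm_smul, norm_inv, Complex.norm_real, norm_norm,
            inv_mul_cancel₀ hx'])
        simp only [map_smul, norm_smul, norm_inv, Complex.norm_real, norm_norm,
          Set.mem_ofPred_eq] at h1
        rw [inv_mul_le_iff₀ (by positivity)] at h1
        linarith
      refine ⟨e, (hSm' e).2 ?_, ?_⟩
      · rw [he1, mul_one]
        exact le_antisymm (by simpa [he1] using T.le_opNorm e) hle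
      · rintro rfl
        simp at he1
    -- invariance
    have hTS : ∀ x ∈ S, T x ∈ S := by
      intro x hx
      by_cases hx0 : x = 0
      · rw [hx0, map_zero]; exact S.zero_mem
      have hx' : ‖x‖ ≠ 0 := norm_ne_zero_iff.2 hx0
      set u : H := (‖x‖ : ℂ)⁻¹ • x with hu
      have hu1 : ‖u‖ = 1 := by
        rw [hu, norm_smul, norm_inv, Complex.norm_real, norm_norm, inv_mul_cancel₀ hx']
      have huS : u ∈ S := S.smul_mem _ hx
      have h1 : ‖T u‖ = r := by
        have := (hSm' u).1 huS
        rwa [hu1, mul_one] at this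
      have h2 := htop T hLT (fun _ => u) (fun _ => hu1) (by
        simp only [h1]
        exact tendsto_const_nhds)
      have h3 : ‖T (T u)‖ = r ^ 2 := tendsto_nhds_unique tendsto_const_nhds h2
      have h4 : T u ∈ S := by
        rw [hSm', h3, h1, sq]
      have h5 : T x = (‖x‖ : ℂ) • T u := by
        rw [hu, map_smul, smul_smul, mul_inv_cancel₀ (by exact_mod_cast hx'), one_smul]
      rw [h5]
      exact S.smul_mem _ h4
    have hinj : ∀ x ∈ S, T x = 0 → x = 0 := by
      intro x hx hx0
      have := (hSm' x).1 hx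
      rw [hx0, norm_zero] at this
      have h1 := mul_eq_zero.1 this.symm
      rcases h1 with h1 | h1
      · exact absurd h1 hr.ne'
      · exact norm_eq_zero.1 h1
    have hsurj : ∀ y ∈ S, ∃ x ∈ S, T x = y := by
      let f : S →ₗ[ℂ] S := (T : H →ₗ[ℂ] H).restrict hTS
      have hf : Function.Injective f := by
        rw [← LinearMap.ker_eq_bot, LinearMap.ker_eq_bot']
        intro x hx
        apply Subtype.ext
        exact hinj x x.2 (congrArg Subtype.val hx)
      have hf' := (LinearMap.injective_iff_surjective (f := f)).1 hf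
      intro y hy
      obtain ⟨x, hx⟩ := hf' ⟨y, hy⟩
      exact ⟨x, x.2, congrArg Subtype.val hx⟩
    have hsS : ∀ x ∈ S, star T x ∈ S ∧ T (star T x) = ((r : ℂ) ^ 2) • x := by
      intro x hx
      obtain ⟨y, hy, rfl⟩ := hsurj x hx
      have h1 : star T (T y) = ((r : ℂ) ^ 2) • y := (hSm y).1 hy
      rw [h1]
      exact ⟨S.smul_mem _ hy, by rw [map_smul]⟩
    set E : H →L[ℂ] H := S.starProjection with hE
    have hEm : ∀ x, E x ∈ S := fun x => Submodule.starProjection_apply_mem S x
    have hEf : ∀ x ∈ S, E x = x := fun x hx => Submodule.starProjection_eq_self_iff.2 hx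
    have hEs : star E = E := (isSelfAdjoint_starProjection S).star_eq
    have hEE : E * E = E := by
      ext x
      exact hEf _ (hEm x)
    have hE1 : E * T * E = T * E := by
      ext x
      exact hEf _ (hTS _ (hEm x))
    have hE2 : E * star T * E = star T * E := by
      ext x
      exact hEf _ (hsS _ (hEm x)).1
    have hE3 : E * T = T * E := by
      have h1 := congrArg star hE2
      simp only [star_mul, star_star, hEs] at h1
      rw [← h1, ← mul_assoc, hE1]
    have hE4 : E * star T = star T * E := by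
      have h1 := congrArg star hE3
      simp only [star_mul, hEs] at h1
      exact h1.symm
    have hA : star T * T * E = ((r : ℂ) ^ 2) • E := by
      ext x
      exact (hSm _).1 (hEm x)
    have hB : T * star T * E = ((r : ℂ) ^ 2) • E := by
      ext x
      exact (hsS _ (hEm x)).2
    -- the complementary part
    have hP : IsStarProjection (1 - E) := by
      constructor
      · change (1 - E) * (1 - E) = 1 - E
        rw [mul_sub, mul_one, sub_mul, one_mul, hEE, sub_self, sub_zero]
      · rw [isSelfAdjoint_iff, star_sub, star_one, hEs]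
    have hc1 : (1 - E) * T = T * (1 - E) := by
      rw [sub_mul, one_mul, mul_sub, mul_one, hE3]
    have hc2 : (1 - E) * star T = star T * (1 - E) := by
      rw [sub_mul, one_mul, mul_sub, mul_one, hE4]
    have hLT' : L (T * (1 - E)) = T * (1 - E) := by
      rw [(hred _ T hP hc1).1, hLT]
    have hrank : Module.finrank ℂ (LinearMap.range ((T * (1 - E) : H →L[ℂ] H) : H →ₗ[ℂ] H)) ≤ n := by
      have hlt : LinearMap.range ((T * (1 - E) : H →L[ℂ] H) : H →ₗ[ℂ] H) <
          LinearMap.range (T : H →ₗ[ℂ] H) := by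
        refine lt_of_le_of_ne ?_ ?_
        · rintro _ ⟨x, rfl⟩
          exact ⟨(1 - E) x, rfl⟩
        · intro heq
          obtain ⟨y, hy, hy'⟩ := hsurj e0 he0
          have h1 : e0 ∈ LinearMap.range (T : H →ₗ[ℂ] H) := ⟨y, hy'⟩
          rw [← heq] at h1
          obtain ⟨z, hz⟩ := h1
          have h2 : E e0 = 0 := by
            rw [← hz]
            have h3 : E * (T * (1 - E)) = 0 := by
              rw [← mul_assoc, hE3, mul_assoc, mul_sub, mul_one, hEE, sub_self, mul_zero]
            exact congrArg (fun A : H →L[ℂ] H => A z) h3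
          rw [hEf e0 he0] at h2
          exact he0' h2
      have := Submodule.finrank_lt_finrank_of_lt hlt
      omega
    have hN := ih _ hrank hLT'
    have hN' := hN.star_comm_self.eq
    have hPP : (1 - E) * (1 - E) = 1 - E := hP.isIdempotentElem
    have hPs : star (1 - E) = 1 - E := by rw [star_sub, star_one, hEs]
    have e1 : star (T * (1 - E)) * (T * (1 - E)) = star T * T * (1 - E) := by
      rw [star_mul, hPs, hc2, ← mul_assoc, mul_assoc (star T), hc1]
      rw [mul_assoc, mul_assoc, hPP, ← mul_assoc]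
    have e2 : T * (1 - E) * star (T * (1 - E)) = T * star T * (1 - E) := by
      rw [star_mul, hPs, mul_assoc, ← mul_assoc (1 - E), hPP, hc2, ← mul_assoc]
    refine ⟨?_⟩
    change star T * T = T * star T
    calc star T * T = star T * T * E + star T * T * (1 - E) := by
          rw [← mul_add, add_sub_cancel, mul_one]
      _ = T * star T * E + T * star T * (1 - E) := by
          rw [hA, hB, ← e1, ← e2, hN']
      _ = T * star T := by rw [← mul_add, add_sub_cancel, mul_one]

theorem fin : T_FIN := by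
  intro H _ _ _ L hfin hred htop T hT
  exact fin_aux L hfin hred htop _ T le_rfl hT

end Pool.Agent.H97.MT
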