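import Pool.Agent.H48.MT.Targets

/-!
# MP_c80a4f_an: the transforms preserve the trace
-/

set_option linter.unusedSectionVars false

open InnerProductSpace Filter Topology
open scoped ComplexConjugate
open Pool.Agent.H48.MT

namespace Pool.Agent.H97.MT

variable {H : Type} [NormedAddCommGroup H] [InnerProductSpace ℂ H] [CompleteSpace H]

/-- a finite rank selfadjoint operator is `P E` with `E` a finite rank operator -/
theorem exists_proj (P : H →L[ℂ] H) (hP : star P = P) (hF : FR P) :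
    ∃ E : H →L[ℂ] H, FR E ∧ P * (1 - E) = 0 := by
  unfold FR at hF
  set K : Submodule ℂ H := LinearMap.range (P : H →ₗ[ℂ] H) with hK
  have : FiniteDimensional ℂ K := hF
  refine ⟨K.starProjection, ?_, ?_⟩
  · unfold FR
    refine Submodule.finiteDimensional_of_le (S₂ := K) ?_
    rintro _ ⟨x, rfl⟩
    exact Submodule.starProjection_apply_mem K x
  · have h1 : K.starProjection * P = P := by
      ext x
      change K.starProjection (P x) = P x
      exact Submodule.starProjection_eq_self_iff.2 ⟨x, rfl⟩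
    have h2 := congrArg star h1
    rw [star_mul, hP, (isSelfAdjoint_starProjection K).star_eq] at h2
    rw [mul_sub, mul_one, h2, sub_self]

theorem trc (h1 : T_PT1) (h2 : T_PT2) (h3 : T_LAM) (h4 : T_TR) : T_TRC := by
  intro H _ _ _ L hL tr htr
  obtain ⟨_, _, hadd, hsmul, hmul, _⟩ := h4 H
  have hal : ∀ (T : H →L[ℂ] H), FR T → ∀ a : ℝ, 0 ≤ a → a ≤ 1 →
      FR (al a T) ∧ tr (al a T) = tr T := by
    intro T hT a ha0 ha1
    obtain ⟨e1, e2, -⟩ := h1 H T
    obtain ⟨hl, -⟩ := h3 H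
    have hP0 : 0 ≤ CFC.abs T := CFC.abs_nonneg T
    have hPF : FR (CFC.abs T) := by
      rw [e2]
      exact (hmul _ _ hT).2
    have hsa : star (CFC.abs T) = CFC.abs T := (IsSelfAdjoint.of_nonneg hP0).star_eq
    obtain ⟨-, p1, -, p4, -, -, p7, -⟩ := h2 H (CFC.abs T) hP0
    have hpF : ∀ b : ℝ, 0 < b → FR (CFC.abs T ^ b : H →L[ℂ] H) := by
      intro b hb
      obtain ⟨E, hE, hE'⟩ := exists_proj _ hsa hPF
      have h5 := ((p7 b hb (1 - E)).1).2 hE'
      rw [mul_sub, mul_one, sub_eq_zero] at h5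
      rw [h5]
      exact (hmul _ _ hE).2
    rcases ha0.eq_or_lt with rfl | ha0
    · rw [(hl T).1]
      exact ⟨hT, rfl⟩
    rcases ha1.eq_or_lt with rfl | ha1
    · rw [(hl T).2]
      refine ⟨(hmul _ _ hPF).1, ?_⟩
      rw [htr.cyc _ _ hPF, ← e1]
    · have hu : (CFC.abs T ^ (1 - a) * CFC.abs T ^ a : H →L[ℂ] H) = CFC.abs T := by
        rw [p4 (1 - a) a (by linarith) ha0]
        rw [show (1 - a + a : ℝ) = 1 by ring]
        exact p1
      unfold al
      refine ⟨(hmul _ _ (hpF (1 - a) (by linarith))).2, ?_⟩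
      rw [mul_assoc, htr.cyc _ _ (hpF a ha0), mul_assoc, hu, ← e1]
  have hhalf : ∀ A B T : H →L[ℂ] H, FR A → FR B → tr A = tr T → tr B = tr T →
      FR ((2 : ℂ)⁻¹ • (A + B)) ∧ tr ((2 : ℂ)⁻¹ • (A + B)) = tr T := by
    intro A B T hA hB hA' hB'
    refine ⟨hsmul _ _ (hadd _ _ hA hB), ?_⟩
    rw [htr.smul _ _ (hadd _ _ hA hB), htr.add _ _ hA hB, hA', hB', ← two_mul,
      inv_mul_cancel_left₀ two_ne_zero]
  have hmean : ∀ (T : H →L[ℂ] H), FR T → FR (mean T) ∧ tr (mean T) = tr T := by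
    intro T hT
    have h5 := hal T hT 1 zero_le_one le_rfl
    rw [((h3 H).1 T).2] at h5
    exact hhalf _ _ T hT h5.1 rfl h5.2
  intro T hT
  rcases hL with rfl | ⟨l, hl0, hl1, rfl⟩
  · obtain ⟨h5, h6⟩ := hal T hT (1 / 2) (by norm_num) (by norm_num)
    obtain ⟨h7, h8⟩ := hmean _ h5
    exact ⟨h7, h8.trans h6⟩
  · obtain ⟨h5, h6⟩ := hal T hT l hl0 (by linarith)
    obtain ⟨h7, h8⟩ := hal T hT (1 - l) (by linarith) (by linarith)
    exact hhalf _ _ T h5 h7 h6 h8

end Pool.Agent.H97.MT
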