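import Pool.Agent.H48.MT.Targets3

/-!
# MP_c80a4f_an: operators of a plane, mean transform
-/

set_option linter.unusedSectionVars false

open InnerProductSpace Filter Topology
open scoped ComplexConjugate
open Pool.Agent.H48.MT

namespace Pool.Agent.H97.MT

variable {H : Type} [NormedAddCommGroup H] [InnerProductSpace ℂ H] [CompleteSpace H]

theorem inner_self_one {x : H} (hx : ‖x‖ = 1) : inner ℂ x x = (1 : ℂ) := by
  rw [inner_self_eq_norm_sq_to_K, hx]; simp

theorem inner_zero_symm {x y : H} (h : inner ℂ x y = (0 : ℂ)) : inner ℂ y x = (0 : ℂ) := by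
  rw [← inner_conj_symm, h, map_zero]

/-- an operator of the plane in terms of its entries -/
theorem plane_eq (u v : H) (B : H →L[ℂ] H)
    (hB : (ro u u + ro v v) * B * (ro u u + ro v v) = B) :
    B = inner ℂ u (B u) • ro u u + inner ℂ u (B v) • ro u v + inner ℂ v (B u) • ro v u +
      inner ℂ v (B v) • ro v v := by
  conv_lhs => rw [← hB]
  ext z
  simp only [mul_assoc]
  change (ro u u + ro v v) (B ((ro u u + ro v v) z)) = _
  simp only [add_apply, ro_apply, map_add, map_smul, smul_apply]
  module

/-- the Jordan product with `u ⊗ u - v ⊗ v` -/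
theorem jp_plane (u v : H) (hu : ‖u‖ = 1) (hv : ‖v‖ = 1) (huv : inner ℂ u v = (0 : ℂ))
    (B : H →L[ℂ] H) (hB : (ro u u + ro v v) * B * (ro u u + ro v v) = B) :
    jp B (ro u u - ro v v) = inner ℂ u (B u) • ro u u + (-inner ℂ v (B v)) • ro v v := by
  have h1 := inner_self_one hu
  have h2 := inner_self_one hv
  have h3 := inner_zero_symm huv
  have h := plane_eq u v B hB
  generalize inner ℂ u (B u) = a at *
  generalize inner ℂ u (B v) = b at *
  generalize inner ℂ v (B u) = c at *
  generalize inner ℂ v (B v) = d at *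
  rw [h]
  unfold jp
  simp only [mul_sub, sub_mul, add_mul, mul_add, smul_mul_assoc, mul_smul_comm, ro_mul_ro, h1, h2,
    h3, huv, zero_smul, one_smul, smul_zero, add_zero, zero_add]
  module

/-- the diagonal entries -/
theorem entry {L Φ : (H →L[ℂ] H) → H →L[ℂ] H} {f : ℂ → ℂ} {m : Bool} (h : JN L Φ m f) (u v : H)
    (hu : ‖u‖ = 1) (hv : ‖v‖ = 1) (huv : inner ℂ u v = (0 : ℂ))
    (B : H →L[ℂ] H) (hB : (ro u u + ro v v) * B * (ro u u + ro v v) = B)
    (hX : (ro u u + ro v v) * Φ B * (ro u u + ro v v) = Φ B) :
    inner ℂ u (Φ B u) = f (inner ℂ u (B u)) := by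
  have h1 := inner_self_one hu
  have h2 := inner_self_one hv
  have h3 := inner_zero_symm huv
  have hf1 : f 1 = 1 := by
    rcases h.fid with h | h <;> simp [h]
  have hf2 : f (-1) = -1 := by
    rcases h.fid with h | h <;> simp [h]
  have hR : Φ (ro u u - ro v v) = ro u u - ro v v := by
    have := h.val u v hu hv huv 1 (-1)
    rw [hf1, hf2] at this
    simpa [sub_eq_add_neg] using this
  have hRs : star (ro u u - ro v v) = ro u u - ro v v := by
    rw [star_sub, star_ro, star_ro]
  have hmul := h.mul B (ro u u - ro v v) hR (by rw [hRs]; exact hR)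
  have hnor : ∀ a d : ℂ, L (a • ro u u + d • ro v v) = a • ro u u + d • ro v v := by
    intro a d
    refine h.lm.nor _ ⟨?_⟩
    change star _ * _ = _ * star _
    simp only [star_add, star_smul, star_ro, mul_add, add_mul, smul_mul_assoc, mul_smul_comm,
      ro_mul_ro, h1, h2, h3, huv, zero_smul, one_smul, smul_zero, add_zero, zero_add]
    simp only [smul_smul, mul_comm]
  rw [jp_plane u v hu hv huv B hB, jp_plane u v hu hv huv _ hX, hnor, hnor,
    h.val u v hu hv huv] at hmul
  have h4 := congrArg (fun A : H →L[ℂ] H => inner ℂ u (A u)) hmul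
  simp only [add_apply, smul_apply, ro_apply, inner_add_right, inner_smul_right, h1, huv,
    mul_one, mul_zero, add_zero] at h4
  exact h4

theorem ext_plane (x y : H) (hx : ‖x‖ = 1) (hy : ‖y‖ = 1) (hxy : inner ℂ x y = (0 : ℂ))
    (Y : H →L[ℂ] H) (hY : (ro x x + ro y y) * Y * (ro x x + ro y y) = Y)
    (h : ∀ u v : H, ‖u‖ = 1 → ‖v‖ = 1 → inner ℂ u v = (0 : ℂ) →
      ro u u + ro v v = ro x x + ro y y → inner ℂ u (Y u) = 0) : Y = 0 := by
  have h1 := inner_self_one hx
  have h2 := inner_self_one hy
  have h3 := inner_zero_symm hxy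
  have ha := h x y hx hy hxy rfl
  have hd := h y x hy hx h3 (add_comm _ _)
  have hs : ∃ s : ℂ, conj s * s = 1 / 2 := by
    refine ⟨((√(1 / 2) : ℝ) : ℂ), ?_⟩
    rw [Complex.conj_ofReal, ← Complex.ofReal_mul, Real.mul_self_sqrt (by norm_num)]
    norm_num
  obtain ⟨s, hs⟩ := hs
  have key : ∀ c : ℂ, conj c * c = 1 → c * inner ℂ x (Y y) + conj c * inner ℂ y (Y x) = 0 := by
    intro c hc
    have hc' : c * conj c = 1 := by rw [mul_comm]; exact hc
    have hs' : s * conj s = 1 / 2 := by rw [mul_comm]; exact hs
    have hn : ∀ w : H, inner ℂ w w = (1 : ℂ) → ‖w‖ = 1 := by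
      intro w hw
      have : (‖w‖ : ℝ) ^ 2 = 1 := by
        have h5 := inner_self_eq_norm_sq_to_K (𝕜 := ℂ) w
        rw [hw] at h5
        have h6 : ((‖w‖ ^ 2 : ℝ) : ℂ) = ((1 : ℝ) : ℂ) := by
          push_cast
          exact h5.symm
        exact Complex.ofReal_injective h6
      exact (pow_eq_one_iff_of_nonneg (norm_nonneg _) two_ne_zero).1 this
    have e := h (s • (x + c • y)) (s • (x - c • y)) (hn _ ?_) (hn _ ?_) ?_ ?_
    · simp only [map_smul, map_add, inner_smul_left, inner_smul_right, inner_add_left,
        inner_add_right, ha, hd] at e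
      have e2 : conj s * s * (c * inner ℂ x (Y y) + conj c * inner ℂ y (Y x)) = 0 := by
        rw [← e]
        simp only [mul_zero, zero_add, add_zero]
        ring
      rw [hs] at e2
      exact (mul_eq_zero.1 e2).resolve_left (by norm_num)
    · simp only [inner_smul_left, inner_smul_right, inner_add_left,
        inner_add_right, h1, h2, h3, hxy]
      linear_combination 2 * hs + (conj s * s) * hc
    · simp only [inner_smul_left, inner_smul_right, inner_sub_left,
        inner_sub_right, h1, h2, h3, hxy]
      linear_combination 2 * hs + (conj s * s) * hc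
    · simp only [inner_smul_left, inner_smul_right, inner_sub_right,
        inner_add_left, h1, h2, h3, hxy]
      linear_combination (-(conj s * s)) * hc
    · have hss : ∀ a b : H, ro (s • a) (s • b) = (1 / 2 : ℂ) • ro a b := by
        intro a b
        rw [ro_smul_left, ro_smul_right, smul_smul, hs']
      have hcc : ro (c • y) (c • y) = ro y y := by
        rw [ro_smul_left, ro_smul_right, smul_smul, hc', one_smul]
      rw [hss, hss]
      simp only [ro_add_left, ro_add_right, ro_sub_left, ro_sub_right, hcc]
      module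
  have k1 := key 1 (by simp)
  have k2 := key Complex.I (by simp)
  simp only [map_one, one_mul, Complex.conj_I] at k1 k2
  have hb : inner ℂ x (Y y) = (0 : ℂ) := by
    have hI := Complex.I_ne_zero
    have : Complex.I * (inner ℂ x (Y y) - inner ℂ y (Y x)) = 0 := by linear_combination k2
    have h5 := (mul_eq_zero.1 this).resolve_left hI
    linear_combination k1 / 2 + h5 / 2
  have hc : inner ℂ y (Y x) = (0 : ℂ) := by
    rw [hb, zero_add] at k1
    exact k1
  rw [plane_eq x y Y hY, ha, hb, hc, hd]
  simp

theorem co2 : T_CO2 := by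
  intro H _ _ _ L Φ f h hsupp x y B hx hy hxy hB
  have h1 := inner_self_one hx
  have h2 := inner_self_one hy
  have h3 := inner_zero_symm hxy
  set E : H →L[ℂ] H := ro x x + ro y y with hE
  have hEs : star E = E := by rw [hE, star_add, star_ro, star_ro]
  have hEE : E * E = E := by
    rw [hE]
    simp only [mul_add, add_mul, ro_mul_ro, h1, h2, h3, hxy, zero_smul, one_smul, add_zero,
      zero_add]
  have hBE : B * (1 - E) = 0 := by
    rw [← hB, mul_sub, mul_one, mul_assoc (E * B), hEE, sub_self]
  have hBs : E * star B * E = star B := by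
    have := congrArg star hB
    simpa only [star_mul, hEs, ← mul_assoc] using this
  have hBE' : star B * (1 - E) = 0 := by
    rw [← hBs, mul_sub, mul_one, mul_assoc (E * star B), hEE, sub_self]
  have hX1 : Φ B * (1 - E) = 0 ∧ star (Φ B) * (1 - E) = 0 := by
    constructor
    · ext z
      exact ((hsupp B ((1 - E) z)).1 ⟨congrArg (fun A : H →L[ℂ] H => A z) hBE,
        congrArg (fun A : H →L[ℂ] H => A z) hBE'⟩).1
    · ext z
      exact ((hsupp B ((1 - E) z)).1 ⟨congrArg (fun A : H →L[ℂ] H => A z) hBE,
        congrArg (fun A : H →L[ℂ] H => A z) hBE'⟩).2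
  have hX2 : Φ B * E = Φ B := by
    have := hX1.1
    rw [mul_sub, mul_one, sub_eq_zero] at this
    exact this.symm
  have hX3 : E * Φ B = Φ B := by
    have := hX1.2
    rw [mul_sub, mul_one, sub_eq_zero] at this
    have h4 := congrArg star this
    rw [star_star, star_mul, hEs, star_star] at h4
    exact h4.symm
  have hX : E * Φ B * E = Φ B := by rw [hX3, hX2]
  constructor
  · intro hf
    have : Φ B - B = 0 := by
      refine ext_plane x y hx hy hxy _ ?_ fun u v hu hv huv huvE => ?_
      · rw [← hE, mul_sub, sub_mul, hX, hB]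
      · rw [sub_apply, inner_sub_right,
          entry h u v hu hv huv B (by rw [huvE, ← hE]; exact hB) (by rw [huvE, ← hE]; exact hX),
          hf, sub_self]
    exact sub_eq_zero.1 this
  · intro hf
    have : Φ B - star B = 0 := by
      refine ext_plane x y hx hy hxy _ ?_ fun u v hu hv huv huvE => ?_
      · rw [← hE, mul_sub, sub_mul, hX, hBs]
      · rw [sub_apply, inner_sub_right,
          entry h u v hu hv huv B (by rw [huvE, ← hE]; exact hB) (by rw [huvE, ← hE]; exact hX),
          hf, ContinuousLinearMap.star_eq_adjoint, ContinuousLinearMap.adjoint_inner_right,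
          inner_conj_symm, sub_self]
    exact sub_eq_zero.1 this

end Pool.Agent.H97.MT
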