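import Pool.Agent.H97.MT.CO2
import Pool.Agent.H48.MT.Targets

/-!
# MP_c80a4f_an: selfadjoint operators on a plane
-/

set_option linter.unusedSectionVars false

open InnerProductSpace Filter Topology
open scoped ComplexConjugate
open Pool.Agent.H48.MT

namespace Pool.Agent.H97.MT

theorem sp2 : T_SP2 := by
  intro H _ _ _ x y X hx hy hxy hX hXE
  have h1 := inner_self_one hx
  have h2 := inner_self_one hy
  have h3 := inner_zero_symm hxy
  have hXs : ∀ p q : H, inner ℂ (X p) q = inner ℂ p (X q) := by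
    intro p q
    have h := hX.star_eq
    rw [ContinuousLinearMap.star_eq_adjoint] at h
    conv_lhs => rw [← h]
    rw [ContinuousLinearMap.adjoint_inner_left]
  have hreal : ∀ p : H, ∃ a : ℝ, inner ℂ p (X p) = (a : ℂ) := by
    intro p
    refine ⟨(inner ℂ p (X p)).re, ?_⟩
    have : conj (inner ℂ p (X p)) = inner ℂ p (X p) := by
      rw [inner_conj_symm, hXs]
    exact (Complex.conj_eq_iff_re.1 this).symm
  -- an eigenvector in the plane
  obtain ⟨s, t, l, hst, hl⟩ : ∃ s t l : ℂ, ¬ (s = 0 ∧ t = 0) ∧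
      X (s • x + t • y) = l • (s • x + t • y) := by
    have hpl := plane_eq x y X hXE
    have hXx : X x = inner ℂ x (X x) • x + inner ℂ y (X x) • y := by
      conv_lhs => rw [hpl]
      simp only [add_apply, smul_apply, ro_apply, h1, h3, one_smul, zero_smul,
        smul_zero, add_zero]
    have hXy : X y = inner ℂ x (X y) • x + inner ℂ y (X y) • y := by
      conv_lhs => rw [hpl]
      simp only [add_apply, smul_apply, ro_apply, h2, hxy, one_smul, zero_smul,
        smul_zero, add_zero, zero_add]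
    generalize inner ℂ x (X x) = a at *
    generalize inner ℂ x (X y) = b at *
    generalize inner ℂ y (X x) = c at *
    generalize inner ℂ y (X y) = d at *
    by_cases hb : b = 0
    · refine ⟨0, 1, d, by simp, ?_⟩
      rw [zero_smul, zero_add, one_smul, hXy, hb, zero_smul, zero_add]
    · obtain ⟨l, hl⟩ : ∃ l : ℂ, (l - a) * (l - d) = b * c := by
        obtain ⟨z, hz⟩ := IsAlgClosed.exists_pow_nat_eq (((a - d) / 2) ^ 2 + b * c) two_pos
        refine ⟨(a + d) / 2 + z, ?_⟩
        linear_combination hz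
      refine ⟨b, l - a, l, by simp [hb], ?_⟩
      rw [map_add, map_smul, map_smul, hXx, hXy]
      have : b • (a • x + c • y) + (l - a) • (b • x + d • y) =
          (b * a + (l - a) * b) • x + (b * c + (l - a) * d) • y := by module
      rw [this, ← hl]
      module
  have hn2 : ((‖s‖ ^ 2 + ‖t‖ ^ 2 : ℝ)) ≠ 0 := by
    intro h
    have hs : ‖s‖ ^ 2 = 0 := by nlinarith [sq_nonneg ‖s‖, sq_nonneg ‖t‖]
    have ht : ‖t‖ ^ 2 = 0 := by nlinarith [sq_nonneg ‖s‖, sq_nonneg ‖t‖]
    exact hst ⟨by simpa using hs, by simpa using ht⟩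
  have hnpos : (0 : ℝ) < ‖s‖ ^ 2 + ‖t‖ ^ 2 := lt_of_le_of_ne (by positivity) (Ne.symm hn2)
  set n : ℝ := √(‖s‖ ^ 2 + ‖t‖ ^ 2) with hn
  have hn0 : 0 < n := Real.sqrt_pos.2 hnpos
  have hnn : n ^ 2 = ‖s‖ ^ 2 + ‖t‖ ^ 2 := Real.sq_sqrt hnpos.le
  have hnc : (n : ℂ) ≠ 0 := by exact_mod_cast hn0.ne'
  -- normalised coefficients
  set u1 : ℂ := s / n with hu1
  set u2 : ℂ := t / n with hu2
  have huu : conj u1 * u1 + conj u2 * u2 = 1 := by
    have e1 : conj u1 * u1 = ((‖s‖ ^ 2 / n ^ 2 : ℝ) : ℂ) := by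
      rw [hu1, map_div₀, Complex.conj_ofReal, div_mul_div_comm, mul_comm (conj s),
        Complex.mul_conj, Complex.normSq_eq_norm_sq]
      push_cast
      ring
    have e2 : conj u2 * u2 = ((‖t‖ ^ 2 / n ^ 2 : ℝ) : ℂ) := by
      rw [hu2, map_div₀, Complex.conj_ofReal, div_mul_div_comm, mul_comm (conj t),
        Complex.mul_conj, Complex.normSq_eq_norm_sq]
      push_cast
      ring
    rw [e1, e2, ← Complex.ofReal_add, ← add_div, ← hnn, div_self (by positivity)]
    simp
  have huX : X (u1 • x + u2 • y) = l • (u1 • x + u2 • y) := by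
    have e : u1 • x + u2 • y = (n : ℂ)⁻¹ • (s • x + t • y) := by
      rw [hu1, hu2, div_eq_inv_mul, div_eq_inv_mul]
      module
    rw [e, map_smul, hl, smul_comm]
  have hone : ∀ w : H, inner ℂ w w = (1 : ℂ) → ‖w‖ = 1 := by
    intro w hw
    have : (‖w‖ : ℝ) ^ 2 = 1 := by
      have h5 := inner_self_eq_norm_sq_to_K (𝕜 := ℂ) w
      rw [hw] at h5
      have h6 : ((‖w‖ ^ 2 : ℝ) : ℂ) = ((1 : ℝ) : ℂ) := by
        push_cast
        exact h5.symm
      exact Complex.ofReal_injective h6
    exact (pow_eq_one_iff_of_nonneg (norm_nonneg _) two_ne_zero).1 this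
  set u : H := u1 • x + u2 • y with hu
  set v : H := (-conj u2) • x + conj u1 • y with hv
  have hnu : ‖u‖ = 1 := by
    refine hone _ ?_
    simp only [hu, inner_add_left, inner_add_right, inner_smul_left, inner_smul_right, h1, h2,
      h3, hxy]
    linear_combination huu
  have hnv : ‖v‖ = 1 := by
    refine hone _ ?_
    simp only [hv, inner_add_left, inner_add_right, inner_smul_left, inner_smul_right, h1, h2,
      h3, hxy, map_neg, Complex.conj_conj]
    linear_combination huu
  have huv : inner ℂ u v = (0 : ℂ) := by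
    simp only [hu, hv, inner_add_left, inner_add_right, inner_smul_left, inner_smul_right, h1, h2,
      h3, hxy]
    ring
  have hE : ro u u + ro v v = ro x x + ro y y := by
    simp only [hu, hv, ro_add_left, ro_add_right, ro_smul_left, ro_smul_right,
      Complex.conj_conj, neg_smul, ro_neg_left, ro_neg_right]
    generalize u1 = c1 at *
    generalize u2 = c2 at *
    trans (conj c1 * c1 + conj c2 * c2) • ro x x + (conj c1 * c1 + conj c2 * c2) • ro y y
    · module
    · rw [huu, one_smul, one_smul]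
  obtain ⟨a, ha⟩ := hreal u
  obtain ⟨b, hb⟩ := hreal v
  refine ⟨u, v, a, b, hnu, hnv, huv, hE, ?_⟩
  have hp := plane_eq u v X (by rw [hE]; exact hXE)
  have e1 : inner ℂ v (X u) = (0 : ℂ) := by
    rw [huX, inner_smul_right, inner_zero_symm huv, mul_zero]
  have e2 : inner ℂ u (X v) = (0 : ℂ) := by
    rw [← hXs, huX, inner_smul_left, huv, mul_zero]
  rw [ha, hb, e1, e2, zero_smul, zero_smul, add_zero, add_zero] at hp
  exact hp

end Pool.Agent.H97.MT
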