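import Pool.Agent.H79.MT.Targets5

/-!
# MP_c80a4f_an: two isometries with complementary ranges in infinite dimension
-/

set_option linter.unusedSectionVars false

open InnerProductSpace Filter Topology
open scoped ComplexConjugate
open Pool.Agent.H48.MT Pool.Agent.H79.MT5

namespace Pool.Agent.H97.MT

variable {H : Type} [NormedAddCommGroup H] [InnerProductSpace ℂ H] [CompleteSpace H]

theorem hb_ext {ι : Type} (b : HilbertBasis ι ℂ H) {G : Type} [NormedAddCommGroup G]
    [NormedSpace ℂ G] (A B : H →L[ℂ] G) (h : ∀ i, A (b i) = B (b i)) : A = B := by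
  refine ContinuousLinearMap.ext_on (s := Set.range b) ?_ ?_
  · have := b.dense_span
    rw [Submodule.dense_iff_topologicalClosure_eq_top]
    exact this
  · rintro _ ⟨i, rfl⟩
    exact h i

theorem exists_iso {ι : Type} (b : HilbertBasis ι ℂ H) (v : ι → H) (hv : Orthonormal ℂ v) :
    ∃ S : H →L[ℂ] H, star S * S = 1 ∧ ∀ i, S (b i) = v i := by
  let S : H →ₗᵢ[ℂ] H := hv.orthogonalFamily.linearIsometry.comp b.repr.toLinearIsometry
  refine ⟨S.toContinuousLinearMap, ?_, ?_⟩
  · ext x
    refine ext_inner_left ℂ fun y => ?_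
    change inner ℂ y (star S.toContinuousLinearMap (S x)) = inner ℂ y x
    rw [ContinuousLinearMap.star_eq_adjoint, ContinuousLinearMap.adjoint_inner_right]
    exact S.inner_map_map y x
  · intro i
    change hv.orthogonalFamily.linearIsometry (b.repr (b i)) = v i
    classical
    rw [b.repr_self, OrthogonalFamily.linearIsometry_apply_single]
    simp

theorem si1 : T_SI1 := by
  intro H _ _ _ hinf
  classical
  obtain ⟨w, b, hb⟩ := exists_hilbertBasis ℂ H
  have hw : Infinite w := by
    by_contra h
    rw [not_infinite_iff_finite] at h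
    apply hinf
    have : Fintype w := Fintype.ofFinite w
    exact (b.toOrthonormalBasis).toBasis.finiteDimensional_of_finite
  obtain ⟨e⟩ : Nonempty (w ⊕ w ≃ w) := by
    rw [← Cardinal.eq, Cardinal.mk_sum, Cardinal.lift_id]
    exact Cardinal.add_eq_self (Cardinal.aleph0_le_mk w)
  have hv1 : Orthonormal ℂ fun i => b (e (Sum.inl i)) :=
    b.orthonormal.comp _ (e.injective.comp Sum.inl_injective)
  have hv2 : Orthonormal ℂ fun i => b (e (Sum.inr i)) :=
    b.orthonormal.comp _ (e.injective.comp Sum.inr_injective)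
  obtain ⟨S₁, h1, h1'⟩ := exists_iso b _ hv1
  obtain ⟨S₂, h2, h2'⟩ := exists_iso b _ hv2
  have hz : ∀ (S : H →L[ℂ] H) (j : w → w) (k : w), (∀ i, S (b i) = b (j i)) → (∀ i, j i ≠ k) →
      star S (b k) = 0 := by
    intro S j k hS hj
    have h3 : (innerSL ℂ (b k)).comp S = 0 := by
      refine hb_ext b _ _ fun i => ?_
      change inner ℂ (b k) (S (b i)) = 0
      rw [hS]
      exact b.orthonormal.2 (hj i).symm
    refine ext_inner_right ℂ fun z => ?_
    rw [inner_zero_left, ContinuousLinearMap.star_eq_adjoint,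
      ContinuousLinearMap.adjoint_inner_left]
    exact congrArg (fun A : H →L[ℂ] ℂ => A z) h3
  have h12 : star S₁ * S₂ = 0 := by
    refine hb_ext b _ _ fun i => ?_
    change star S₁ (S₂ (b i)) = 0
    rw [h2']
    exact hz S₁ (fun i => e (Sum.inl i)) _ h1' fun i hi => by
      have := e.injective hi
      simp at this
  have h21 : star S₂ * S₁ = 0 := by
    have := congrArg star h12
    rwa [star_mul, star_star, star_zero] at this
  refine ⟨S₁, S₂, h1, h2, h12, h21, ?_⟩
  refine hb_ext b _ _ fun k => ?_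
  obtain ⟨s, rfl⟩ := e.surjective k
  change S₁ (star S₁ (b (e s))) + S₂ (star S₂ (b (e s))) = b (e s)
  rcases s with i | i
  · have h3 : star S₁ (S₁ (b i)) = b i := congrArg (fun A : H →L[ℂ] H => A (b i)) h1
    have h4 : star S₂ (S₁ (b i)) = 0 := congrArg (fun A : H →L[ℂ] H => A (b i)) h21
    rw [← h1', h3, h4, map_zero, add_zero]
  · have h3 : star S₂ (S₂ (b i)) = b i := congrArg (fun A : H →L[ℂ] H => A (b i)) h2
    have h4 : star S₁ (S₂ (b i)) = 0 := congrArg (fun A : H →L[ℂ] H => A (b i)) h12
    rw [← h2', h3, h4, map_zero, zero_add]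

end Pool.Agent.H97.MT
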