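import Pool.Agent.H79.MT.Targets5

/-!
# MP_c80a4f_an: a square zero operator of rank at least two splits
-/

set_option linter.unusedSectionVars false

open InnerProductSpace Filter Topology
open scoped ComplexConjugate
open Pool.Agent.H48.MT Pool.Agent.H79.MT5

namespace Pool.Agent.H97.MT

variable {H : Type} [NormedAddCommGroup H] [InnerProductSpace ℂ H] [CompleteSpace H]

theorem hat_props (s1 s2 : ℝ) (h : s1 ≠ s2) : ∃ f1 f2 : ℝ → ℝ, Continuous f1 ∧ Continuous f2 ∧
    f1 s1 = 1 ∧ f2 s2 = 1 ∧ ∀ t, f1 t * f2 t = 0 := by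
  set d : ℝ := |s1 - s2| / 2 with hd
  have hd0 : 0 < d := by
    have := abs_pos.2 (sub_ne_zero.2 h)
    positivity
  refine ⟨fun t => max 0 (1 - |t - s1| / d), fun t => max 0 (1 - |t - s2| / d), by fun_prop,
    by fun_prop, by simp, by simp, fun t => ?_⟩
  by_cases h1 : d ≤ |t - s1|
  · have : 1 - |t - s1| / d ≤ 0 := by
      rw [sub_nonpos, le_div_iff₀ hd0]
      linarith
    simp only [max_eq_left this, zero_mul]
  · have h2 : d ≤ |t - s2| := by
      by_contra h2
      have h3 : |s1 - s2| ≤ |t - s1| + |t - s2| := by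
        calc |s1 - s2| = |(t - s2) - (t - s1)| := by ring_nf
          _ ≤ |t - s2| + |t - s1| := abs_sub _ _
          _ = _ := add_comm _ _
      have h4 : |s1 - s2| = 2 * d := by rw [hd]; ring
      linarith [not_le.1 h1, not_le.1 h2]
    have : 1 - |t - s2| / d ≤ 0 := by
      rw [sub_nonpos, le_div_iff₀ hd0]
      linarith
    simp only [max_eq_left this, mul_zero]

theorem star_mul_self_zero {A : H →L[ℂ] H} (h : star A * A = 0) : A = 0 :=
  (CStarRing.star_mul_self_eq_zero_iff A).1 h

theorem sk : T_SK := by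
  intro H _ _ _ M hMM hM0 hrk
  have hss : star M * star M = 0 := by
    have := congrArg star hMM
    rwa [star_mul, star_zero] at this
  set Q : H →L[ℂ] H := M * star M + star M * M with hQ
  have hQ0 : 0 ≤ Q := add_nonneg (mul_star_self_nonneg M) (star_mul_self_nonneg M)
  have hQs : IsSelfAdjoint Q := IsSelfAdjoint.of_nonneg hQ0
  have hQM : Q * M = M * (star M * M) := by
    rw [hQ, add_mul, mul_assoc, mul_assoc, hMM, mul_zero, add_zero]
  have hMQ : M * Q = M * (star M * M) := by
    rw [hQ, mul_add, ← mul_assoc, hMM, zero_mul, zero_add]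
  have hcomm : Commute Q M := hQM.trans hMQ.symm
  have hkill : ∀ C : H →L[ℂ] H, IsSelfAdjoint C → C * M = M * C → C * M = 0 → C * Q = 0 := by
    intro C hC hCM h0
    have h1 : C * star M = 0 := by
      have := congrArg star (hCM ▸ h0 : M * C = 0)
      rwa [star_mul, hC.star_eq, star_zero] at this
    rw [hQ, mul_add, ← mul_assoc, ← mul_assoc, h0, h1, zero_mul, zero_mul, add_zero]
  have hnt : Nontrivial (H →L[ℂ] H) := ⟨M, 0, hM0⟩
  have hspec : ∀ (f : ℝ → ℝ) (s : ℝ), Continuous f → s ∈ spectrum ℝ Q → f s = 1 → s ≠ 0 →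
      cfc f Q * M ≠ 0 := by
    intro f s hf hs hfs hs0 h0
    have hc : Commute (cfc f Q) M := hcomm.cfc_real f
    have h1 := hkill (cfc f Q) (cfc_predicate f Q) hc h0
    have h2 : cfc (fun t => f t * t) Q = 0 := by
      rw [cfc_mul f (fun t => t) Q hf.continuousOn continuousOn_id, cfc_id' ℝ Q, h1]
    have h3 : s ∈ spectrum ℝ (cfc (fun t => f t * t) Q) := by
      rw [cfc_map_spectrum (fun t => f t * t) Q hQs (hf.mul continuous_id).continuousOn]
      exact ⟨s, hs, by simp only [hfs, one_mul]⟩
    rw [h2, spectrum.zero_eq] at h3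
    exact hs0 h3
  by_cases hcase : ∃ s1 ∈ spectrum ℝ Q, ∃ s2 ∈ spectrum ℝ Q, s1 ≠ 0 ∧ s2 ≠ 0 ∧ s1 ≠ s2
  · obtain ⟨s1, hs1, s2, hs2, h10, h20, h12⟩ := hcase
    obtain ⟨f1, f2, hf1, hf2, e1, e2, e12⟩ := hat_props s1 s2 h12
    have hprod : cfc f1 Q * cfc f2 Q = 0 := by
      rw [← cfc_mul f1 f2 Q hf1.continuousOn hf2.continuousOn]
      simp only [e12]
      exact cfc_const_zero ℝ Q
    have hprod' : cfc f2 Q * cfc f1 Q = 0 := by
      rw [← cfc_mul f2 f1 Q hf2.continuousOn hf1.continuousOn]
      simp only [mul_comm (f2 _), e12]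
      exact cfc_const_zero ℝ Q
    exact ⟨cfc f1 Q, cfc f2 Q, cfc_predicate f1 Q, cfc_predicate f2 Q, hcomm.cfc_real f1,
      hcomm.cfc_real f2, hprod, hprod', hspec f1 s1 hf1 hs1 e1 h10, hspec f2 s2 hf2 hs2 e2 h20⟩
  · push Not at hcase
    obtain ⟨b, hb, hb0⟩ : ∃ b ∈ spectrum ℝ Q, b ≠ 0 := by
      by_contra h
      push Not at h
      have h1 : Q = 0 := by
        rw [← cfc_id ℝ Q, ← cfc_const_zero ℝ Q]
        exact cfc_congr fun t ht => h t ht
      have h2 : star M * M = 0 := by
        have h3 : star M * M ≤ Q := by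
          rw [hQ]
          exact le_add_of_nonneg_left (mul_star_self_nonneg M)
        rw [h1] at h3
        exact le_antisymm h3 (star_mul_self_nonneg M)
      exact hM0 (star_mul_self_zero h2)
    have hbpos : 0 < b := lt_of_le_of_ne (spectrum_nonneg_of_nonneg hQ0 hb) (Ne.symm hb0)
    have hQQ : Q * Q = b • Q := by
      have h1 : cfc (fun t : ℝ => t * t) Q = cfc (fun t : ℝ => b * t) Q := by
        refine cfc_congr fun t ht => ?_
        by_cases ht0 : t = 0
        · simp [ht0]
        · simp only [hcase b hb t ht hb0 ht0]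
      rw [cfc_mul (fun t => t) (fun t => t) Q continuousOn_id continuousOn_id, cfc_id' ℝ Q,
        cfc_const_mul b (fun t => t) Q continuousOn_id, cfc_id' ℝ Q] at h1
      exact h1
    set A : H →L[ℂ] H := star M * M with hA
    have hAs : star A = A := by rw [hA, star_mul, star_star]
    have e1 : M * A * A = b • (M * A) := by
      have h1 : Q * Q * M = M * A * A := by
        rw [mul_assoc, hQM, ← mul_assoc, hQM]
      rw [← h1, hQQ, smul_mul_assoc, hQM]
    have e2 : A * A * A = b • (A * A) := by
      have h1 := congrArg (fun X => star M * X) e1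
      simp only [mul_smul_comm, ← mul_assoc] at h1
      exact h1
    have e3 : A * A = b • A := by
      rw [← sub_eq_zero]
      apply star_mul_self_zero
      rw [star_sub, star_smul, star_mul, hAs, star_trivial b]
      simp only [sub_mul, mul_sub, smul_mul_assoc, mul_smul_comm]
      have h1 : A * A * (A * A) = b • b • (A * A) := by
        rw [← mul_assoc, e2, smul_mul_assoc, e2]
      have h2 : A * (A * A) = b • (A * A) := by rw [← mul_assoc, e2]
      rw [h1, e2, h2]
      simp only [sub_self, smul_zero]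
    have e4 : M * A = b • M := by
      rw [← sub_eq_zero]
      apply star_mul_self_zero
      rw [star_sub, star_smul, star_mul, hAs, star_trivial b]
      simp only [sub_mul, mul_sub, smul_mul_assoc, mul_smul_comm]
      have h1 : A * star M * (M * A) = b • b • A := by
        rw [mul_assoc, ← mul_assoc (star M), ← hA, e3, mul_smul_comm, e3]
      have h2 : star M * (M * A) = b • A := by rw [← mul_assoc, ← hA, e3]
      have h3 : A * star M * M = b • A := by rw [mul_assoc, ← hA, e3]
      rw [h1, h2, h3, ← hA]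
      simp only [sub_self, smul_zero]
    obtain ⟨z, hz⟩ : ∃ z, M z ≠ 0 := by
      by_contra h
      push Not at h
      exact hM0 (by ext y; simpa using h y)
    set w : H := A z with hw
    have hMw : M w = b • M z := congrArg (fun X : H →L[ℂ] H => X z) e4
    have hw0 : w ≠ 0 := by
      intro h
      rw [h, map_zero] at hMw
      exact (smul_ne_zero hb0 hz) hMw.symm
    have hAw : A w = b • w := congrArg (fun X : H →L[ℂ] H => X z) e3
    have hsw : star M w = 0 := by
      have : (star M * star M) (M z) = 0 := by rw [hss]; rfl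
      exact this
    have hMMw : M (M w) = 0 := by
      have : (M * M) w = 0 := by rw [hMM]; rfl
      exact this
    have hnw : (‖w‖ : ℂ) ≠ 0 := by
      exact_mod_cast norm_ne_zero_iff.2 hw0
    set v : H := (‖w‖ : ℂ)⁻¹ • w with hv
    have hvv : inner ℂ v v = (1 : ℂ) := by
      rw [hv, inner_smul_left, inner_smul_right, inner_self_eq_norm_sq_to_K, map_inv₀,
        Complex.conj_ofReal]
      change (‖w‖ : ℂ)⁻¹ * ((‖w‖ : ℂ)⁻¹ * (‖w‖ : ℂ) ^ 2) = 1
      field_simp
    have hv0 : v ≠ 0 := by
      rintro h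
      rw [h, inner_zero_left] at hvv
      exact zero_ne_one hvv
    have hAv : star M (M v) = (b : ℂ) • v := by
      have h1 : A v = (b : ℂ) • v := by
        rw [hv, map_smul, hAw, smul_comm, Complex.coe_smul]
      exact h1
    have hsv : star M v = 0 := by rw [hv, map_smul, hsw, smul_zero]
    have hMMv : M (M v) = 0 := by rw [hv, map_smul, map_smul, hMMw, smul_zero]
    have hmv0 : M v ≠ 0 := by
      intro h
      rw [h, map_zero] at hAv
      exact (smul_ne_zero (by exact_mod_cast hb0) hv0) hAv.symm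
    have hmm : inner ℂ (M v) (M v) = (b : ℂ) := by
      have : inner ℂ (M v) (M v) = inner ℂ v (star M (M v)) := by
        rw [ContinuousLinearMap.star_eq_adjoint, ContinuousLinearMap.adjoint_inner_right]
      rw [this, hAv, inner_smul_right, hvv, mul_one]
    have hvm : inner ℂ v (M v) = (0 : ℂ) := by
      have : inner ℂ v (M v) = inner ℂ (star M v) v := by
        rw [ContinuousLinearMap.star_eq_adjoint, ContinuousLinearMap.adjoint_inner_left]
      rw [this, hsv, inner_zero_left]
    have hmv : inner ℂ (M v) v = (0 : ℂ) := by rw [← inner_conj_symm, hvm, map_zero]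
    have hbc : (b : ℂ) ≠ 0 := by exact_mod_cast hb0
    set C : H →L[ℂ] H := ro v v + (b : ℂ)⁻¹ • ro (M v) (M v) with hC
    have hCs : star C = C := by
      rw [hC, star_add, star_smul, star_ro, star_ro]
      congr 2
      change conj (b : ℂ)⁻¹ = _
      rw [map_inv₀, Complex.conj_ofReal]
    have hCM : C * M = ro (M v) v := by
      rw [hC, add_mul, smul_mul_assoc, ro_mul, ro_mul, hsv, hAv, ro_zero_right, zero_add,
        ro_smul_right, Complex.conj_ofReal, smul_smul, inv_mul_cancel₀ hbc, one_smul]
    have hMC : M * C = ro (M v) v := by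
      rw [hC, mul_add, mul_smul_comm, mul_ro, mul_ro, hMMv, ro_zero_left, smul_zero, add_zero]
    have hCC : C * C = C := by
      rw [hC]
      simp only [add_mul, mul_add, smul_mul_assoc, mul_smul_comm, ro_mul_ro, hvv, hmm, hvm, hmv,
        zero_smul, smul_zero, one_smul, add_zero, zero_add, smul_smul]
      congr 2
      field_simp
    refine ⟨C, 1 - C, hCs, ?_, hCM.trans hMC.symm, ?_, ?_, ?_, ?_, ?_⟩
    · rw [isSelfAdjoint_iff, star_sub, star_one, hCs]
    · rw [sub_mul, mul_sub, one_mul, mul_one, hCM, hMC]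
    · rw [mul_sub, mul_one, hCC, sub_self]
    · rw [sub_mul, one_mul, hCC, sub_self]
    · rw [hCM]
      intro h
      rcases ro_eq_zero.1 h with h | h
      · exact hmv0 h
      · exact hv0 h
    · rw [sub_mul, one_mul, hCM]
      intro h
      exact hrk ⟨M v, v, sub_eq_zero.1 h⟩

end Pool.Agent.H97.MT
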