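import Pool.Agent.H79.MT.Targets5

/-!
# MP_c80a4f_an: the swindle
-/

set_option linter.unusedSectionVars false

open InnerProductSpace Filter Topology
open scoped ComplexConjugate
open Pool.Agent.H48.MT Pool.Agent.H79.MT5

namespace Pool.Agent.H97.MT

variable {H : Type} [NormedAddCommGroup H] [InnerProductSpace ℂ H] [CompleteSpace H]

theorem inner_iso (S T : H →L[ℂ] H) (p q : H) :
    inner ℂ (S p) (T q) = inner ℂ p ((star S * T) q) := by
  change _ = inner ℂ p (star S (T q))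
  rw [ContinuousLinearMap.star_eq_adjoint, ContinuousLinearMap.adjoint_inner_right]

theorem norm_iso {S : H →L[ℂ] H} (hS : star S * S = 1) (p : H) : ‖S p‖ = ‖p‖ := by
  have h := inner_iso S S p p
  rw [hS] at h
  change _ = inner ℂ p p at h
  rw [inner_self_eq_norm_sq_to_K, inner_self_eq_norm_sq_to_K] at h
  have h2 : ((‖S p‖ ^ 2 : ℝ) : ℂ) = ((‖p‖ ^ 2 : ℝ) : ℂ) := by
    push_cast
    exact h
  have h3 := Complex.ofReal_injective h2
  exact (pow_left_inj₀ (norm_nonneg _) (norm_nonneg _) two_ne_zero).1 h3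

theorem norm_pyth {S₁ S₂ : H →L[ℂ] H} (h1 : star S₁ * S₁ = 1) (h2 : star S₂ * S₂ = 1)
    (h3 : star S₂ * S₁ = 0) (p q : H) : ‖S₂ p + S₁ q‖ ^ 2 = ‖p‖ ^ 2 + ‖q‖ ^ 2 := by
  have h := norm_add_sq_eq_norm_sq_add_norm_sq_of_inner_eq_zero (𝕜 := ℂ) (S₂ p) (S₁ q) (by
    rw [inner_iso, h3]
    simp)
  rw [norm_iso h1, norm_iso h2] at h
  rw [sq, sq, sq]
  exact h

theorem si2 : T_SI2 := by
  intro H _ _ _ S₁ S₂ h1 h2 h12 h21 hsum Z
  have hpyth := norm_pyth h1 h2 h21
  have hdec : ∀ x : H, ‖x‖ ^ 2 = ‖star S₂ x‖ ^ 2 + ‖star S₁ x‖ ^ 2 := by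
    intro x
    rw [← hpyth]
    have : S₂ (star S₂ x) + S₁ (star S₁ x) = x := by
      have := congrArg (fun A : H →L[ℂ] H => A x) hsum
      change S₁ (star S₁ x) + S₂ (star S₂ x) = x at this
      rw [add_comm]
      exact this
    rw [this]
  let D : ℕ → (H →L[ℂ] H) := fun n => Nat.rec 0 (fun _ D => S₂ * Z * star S₂ + S₁ * D * star S₁) n
  have hD0 : D 0 = 0 := rfl
  have hD1 : ∀ n, D (n + 1) = S₂ * Z * star S₂ + S₁ * D n * star S₁ := fun n => rfl
  have hDa : ∀ n x, D (n + 1) x = S₂ (Z (star S₂ x)) + S₁ (D n (star S₁ x)) := fun n x => by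
    rw [hD1]; rfl
  let c : ℕ → H → ℝ := fun n x => ‖(star S₁ ^ n : H →L[ℂ] H) x‖ ^ 2
  have hc1 : ∀ n x, c (n + 1) x = c n (star S₁ x) := by
    intro n x
    simp only [c]
    rw [pow_succ (star S₁) n]
    rfl
  have hcanti : ∀ x n, c (n + 1) x ≤ c n x := by
    intro x n
    simp only [c]
    rw [pow_succ' (star S₁) n]
    change ‖star S₁ ((star S₁ ^ n : H →L[ℂ] H) x)‖ ^ 2 ≤ _
    rw [hdec ((star S₁ ^ n : H →L[ℂ] H) x)]
    have := sq_nonneg ‖star S₂ ((star S₁ ^ n : H →L[ℂ] H) x)‖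
    linarith
  have hest0 : ∀ n x, ‖D n x‖ ^ 2 ≤ ‖Z‖ ^ 2 * (‖x‖ ^ 2 - c n x) := by
    intro n
    induction n with
    | zero =>
      intro x
      rw [hD0]
      simp [c]
    | succ n ih =>
      intro x
      rw [hDa, hpyth, hc1, hdec x]
      have h3 := ih (star S₁ x)
      have h4 : ‖Z (star S₂ x)‖ ^ 2 ≤ ‖Z‖ ^ 2 * ‖star S₂ x‖ ^ 2 := by
        rw [← mul_pow]
        gcongr
        exact Z.le_opNorm _
      linarith
  have hest : ∀ m k x, ‖D (m + k) x - D m x‖ ^ 2 ≤ ‖Z‖ ^ 2 * (c m x - c (m + k) x) := by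
    intro m k
    induction m with
    | zero =>
      intro x
      have := hest0 k x
      rw [hD0]
      simp only [zero_add]
      change ‖D k x - 0‖ ^ 2 ≤ ‖Z‖ ^ 2 * (c 0 x - c k x)
      rw [sub_zero]
      have h3 : c 0 x = ‖x‖ ^ 2 := by simp [c]
      rw [h3]
      exact this
    | succ m ih =>
      intro x
      have e : m + 1 + k = (m + k) + 1 := by ring
      rw [e, hDa, hDa, hc1, hc1]
      have h3 : S₂ (Z (star S₂ x)) + S₁ (D (m + k) (star S₁ x)) -
          (S₂ (Z (star S₂ x)) + S₁ (D m (star S₁ x))) =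
          S₁ (D (m + k) (star S₁ x) - D m (star S₁ x)) := by
        rw [map_sub]
        abel
      rw [h3, norm_iso h1]
      exact ih _
  have hcau : ∀ x, CauchySeq fun n => D n x := by
    intro x
    have hanti : Antitone fun n => c n x := antitone_nat_of_succ_le (hcanti x)
    have hb : BddBelow (Set.range fun n => c n x) := ⟨0, by
      rintro _ ⟨n, rfl⟩
      simp only [c]
      positivity⟩
    have hl := tendsto_atTop_ciInf hanti hb
    set l := ⨅ n, c n x with hl'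
    have hlle : ∀ n, l ≤ c n x := fun n => ciInf_le hb n
    refine cauchySeq_of_le_tendsto_0' (fun n => ‖Z‖ * √(c n x - l)) ?_ ?_
    · intro n m hnm
      obtain ⟨k, rfl⟩ := Nat.exists_eq_add_of_le hnm
      rw [dist_comm, dist_eq_norm]
      have h3 := hest n k x
      have h4 : ‖D (n + k) x - D n x‖ ^ 2 ≤ (‖Z‖ * √(c n x - l)) ^ 2 := by
        rw [mul_pow, Real.sq_sqrt (by linarith [hlle n])]
        refine h3.trans ?_
        gcongr
        exact hlle _
      exact (pow_le_pow_iff_left₀ (norm_nonneg _) (by positivity) two_ne_zero).1 h4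
    · have h3 : Tendsto (fun n => ‖Z‖ * √(c n x - l)) atTop (𝓝 (‖Z‖ * √(l - l))) :=
        ((Real.continuous_sqrt.tendsto _).comp (hl.sub_const l)).const_mul _
      simpa using h3
  choose g hg using fun x => cauchySeq_tendsto_of_complete (hcau x)
  have hgt : Tendsto (fun n x => D n x) atTop (𝓝 g) := tendsto_pi_nhds.2 hg
  refine ⟨continuousLinearMapOfTendsto D hgt, ?_⟩
  ext x
  change g x = S₂ (Z (star S₂ x)) + S₁ (g (star S₁ x))
  have h3 : Tendsto (fun n => D (n + 1) x) atTop (𝓝 (g x)) := (tendsto_add_atTop_iff_nat 1).2 (hg x)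
  have h4 : Tendsto (fun n => D (n + 1) x) atTop
      (𝓝 (S₂ (Z (star S₂ x)) + S₁ (g (star S₁ x)))) := by
    simp only [hDa]
    exact tendsto_const_nhds.add ((S₁.continuous.tendsto _).comp (hg (star S₁ x)))
  exact tendsto_nhds_unique h3 h4

end Pool.Agent.H97.MT
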